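import Pool.Agent.Helper2.CF.Defs
import Pool.Agent.Helper88.MT.Extremal

/-!
Project CF (MP_b8862a_ag), block CF-4: positivity of the trace of `x θ(x)` on the positive root spaces.
The statements of CF-3a (`hlie`) and CF-1c (`heig`, for the space `L`) are hypotheses.
-/

open Module LieModule LieAlgebra LieAlgebra.IsKilling

namespace CF

open MTP MTP.MF

section lie

variable {V : Type*} [AddCommGroup V] [Module ℂ V] [FiniteDimensional ℂ V]
  {L : Type*} [LieRing L] [LieAlgebra ℂ L] [FiniteDimensional ℂ L] [IsKilling ℂ L]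
  {H : LieSubalgebra ℂ L} [H.IsCartanSubalgebra] [LieRingModule L V] [LieModule ℂ L V]
  {b : (rootSystem H).Base} {es fs : H.root → L} {S : V →ₗ[ℂ] V →ₗ⋆[ℂ] ℂ} {θ : L → L}

/-- The trace form on a triple is positive. -/
private lemma tf_triple (hfaith : ∀ x : L, (∀ u : V, ⁅x, u⁆ = 0) → x = 0)
    {I : Type*} [Fintype I] (B : WB (V := V) H I)
    (hint : ∀ i (α : H.root), ∃ a : ℤ, B.w i (coroot α.1) = (a : ℂ))
    {α : H.root} {e f : L} (ht : IsSl2Triple ((coroot α.1 : H) : L) e f)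
    (he : e ∈ rootSpace H α.1) :
    ∃ r : ℝ, 0 < r ∧ traceForm ℂ L V e f = (r : ℂ) := by
  choose a ha using fun i => hint i α
  have h1 : traceForm ℂ H V (coroot α.1) (coroot α.1) =
      ∑ i, B.w i (coroot α.1) * B.w i (coroot α.1) := B.traceForm_apply _ _
  have h2 := tf_coroot_self (V := V) ht he
  refine ⟨(1 / 2 : ℝ) * ∑ i, (a i : ℝ) * (a i : ℝ), ?_, ?_⟩
  · obtain ⟨i, j, hij⟩ := B.root_apply hfaith α
    have h4 := hij (coroot α.1)
    rw [ha, ha, root_apply_coroot (H.isNonZero_coe_root α)] at h4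
    have h5 : a j = 2 + a i := by exact_mod_cast h4
    have hk : ∃ k, a k ≠ 0 := by
      by_cases h0 : a i = 0
      · exact ⟨j, by omega⟩
      · exact ⟨i, h0⟩
    obtain ⟨k, hk⟩ := hk
    have hk' : (a k : ℝ) ≠ 0 := by exact_mod_cast hk
    have h6 : 0 < ∑ i, (a i : ℝ) * (a i : ℝ) := by
      refine Finset.sum_pos' (fun i _ => mul_self_nonneg _) ⟨k, Finset.mem_univ _, ?_⟩
      exact mul_self_pos.mpr hk'
    positivity
  · rw [h1] at h2
    have h3 : ∑ i, B.w i (coroot α.1) * B.w i (coroot α.1) = ((∑ i, (a i : ℝ) * (a i : ℝ) : ℝ) : ℂ) := by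
      push_cast
      refine Finset.sum_congr rfl fun i _ => ?_
      rw [ha]
    rw [h3] at h2
    push_cast at h2 ⊢
    linear_combination (-1 / 2 : ℂ) * h2

omit [FiniteDimensional ℂ V] in
/-- The scalar version: passing to a multiple. -/
private lemma smul_case (T : TH b es fs S θ) {z : L} (c : ℂ) (hc : c ≠ 0) {r : ℝ} (hr : 0 < r)
    (hz : traceForm ℂ L V z (θ z) = (r : ℂ)) :
    ∃ r : ℝ, 0 < r ∧ traceForm ℂ L V (c • z) (θ (c • z)) = (r : ℂ) := by
  refine ⟨Complex.normSq c * r, mul_pos (Complex.normSq_pos.mpr hc) hr, ?_⟩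
  rw [T.smul, map_smul, map_smul, LinearMap.smul_apply, hz, smul_eq_mul, smul_eq_mul,
    Complex.ofReal_mul, ← Complex.mul_conj]
  ring

/-- CF-4: positivity of `tr (x θ(x))` on the positive root spaces. -/
theorem norm_pos [Nontrivial V] (hfaith : ∀ x : L, (∀ u : V, ⁅x, u⁆ = 0) → x = 0)
    {I : Type*} [Fintype I] (B : WB (V := V) H I)
    (hint : ∀ i (α : H.root), ∃ a : ℤ, B.w i (coroot α.1) = (a : ℂ))
    (hlie : ∀ {i : H.root}, i ∈ b.support → ∀ {α β : H.root},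
      (rootSystem H).root α = (rootSystem H).root i + (rootSystem H).root β → ∀ {y : L},
      y ∈ rootSpace H β.1 → y ≠ 0 → ⁅es i, y⁆ ∈ rootSpace H α.1 ∧ ⁅es i, y⁆ ≠ 0)
    (heig : ∀ {h e f : Module.End ℂ L}, h * e - e * h = (2 : ℂ) • e →
      h * f - f * h = -((2 : ℂ) • f) → e * f - f * e = h → ∀ {u : L}, u ≠ 0 → ∀ {a c : ℂ},
      h u = a • u → f (e u) = c • u → ∃ r : ℝ, 0 ≤ r ∧ c = (r : ℂ) ∧ (r = 0 → e u = 0))
    (G : Gen b es fs) (T : TH b es fs S θ) {α : H.root} (hα : b.IsPos α) {x : L} (hx : x ∈ rootSpace H α.1)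
    (hx0 : x ≠ 0) : ∃ r : ℝ, 0 < r ∧ traceForm ℂ L V x (θ x) = (r : ℂ) := by
  revert x
  refine hα.induction_on_add (p := fun α : H.root => ∀ {x : L}, x ∈ rootSpace H α.1 → x ≠ 0 →
    ∃ r : ℝ, 0 < r ∧ traceForm ℂ L V x (θ x) = (r : ℂ)) ?_ ?_
  · intro i hi x hx hx0
    have ht := G.tr i hi
    have he := G.me i hi
    obtain ⟨c, rfl⟩ := mem_line he ht.e_ne_zero hx
    have hc : c ≠ 0 := by
      rintro rfl
      exact hx0 (zero_smul _ _)
    obtain ⟨r, hr, hr2⟩ := tf_triple (V := V) hfaith B hint ht he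
    refine smul_case T c hc hr ?_
    rw [T.e i hi, hr2]
  · intro i j k hk ih hj x hx hx0
    obtain ⟨y, hy, hy0⟩ := i.1.exists_ne_zero
    have hk' : (rootSystem H).root k = (rootSystem H).root j + (rootSystem H).root i := by
      rw [hk, add_comm]
    obtain ⟨hz, hz0⟩ := hlie hj hk' hy hy0
    obtain ⟨c, rfl⟩ := mem_line hz hz0 hx
    have hc : c ≠ 0 := by
      rintro rfl
      exact hx0 (zero_smul _ _)
    obtain ⟨s, hs, hs2⟩ := ih hy hy0
    have ht := G.tr j hj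
    have he := G.me j hj
    have hf := G.mf j hj
    have hval : ∀ h : H, k.1 h = j.1 h + i.1 h := by
      intro h
      have h1 := LinearMap.congr_fun hk' h
      exact h1
    have hw : (-(j.1 : Weight ℂ H L) : H → ℂ) + (k.1 : H → ℂ) = (i.1 : H → ℂ) := by
      funext h
      have h1 := hval h
      simp only [Pi.add_apply, Pi.neg_apply]
      rw [h1]
      ring
    have hfz : ⁅fs j, ⁅es j, y⁆⁆ ∈ rootSpace H i.1 := by
      have h1 : ⁅fs j, ⁅es j, y⁆⁆ ∈
          rootSpace H ((-(j.1 : H → ℂ)) + (k.1 : H → ℂ)) :=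
        lie_mem_genWeightSpace_of_mem_genWeightSpace hf hz
      rw [hw] at h1
      exact h1
    obtain ⟨d, hd⟩ := mem_line hy hy0 hfz
    have hbr : ∀ u v : L, toEnd ℂ L L ⁅u, v⁆ = toEnd ℂ L L u * toEnd ℂ L L v -
        toEnd ℂ L L v * toEnd ℂ L L u := by
      intro u v
      refine LinearMap.ext fun m => ?_
      change ⁅⁅u, v⁆, m⁆ = ⁅u, ⁅v, m⁆⁆ - ⁅v, ⁅u, m⁆⁆
      rw [lie_lie]
    have hhf : ⁅((coroot j.1 : H) : L), fs j⁆ = -((2 : ℂ) • fs j) := by
      rw [ht.lie_h_f_nsmul, two_nsmul, two_smul]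
    obtain ⟨r, hr, hr1, hr2⟩ := heig (h := toEnd ℂ L L ((coroot j.1 : H) : L))
      (e := toEnd ℂ L L (es j)) (f := toEnd ℂ L L (fs j))
      (by rw [← hbr, ht.lie_h_e_smul ℂ, map_smul])
      (by rw [← hbr, hhf, map_neg, map_smul])
      (by rw [← hbr, ht.lie_e_f]) hy0 (a := i.1 (coroot j.1)) (c := d)
      (by
        rw [toEnd_apply_apply]
        exact lie_root hy _)
      (by
        rw [toEnd_apply_apply, toEnd_apply_apply, hd])
    have hrpos : 0 < r := by
      rcases hr.lt_or_eq with h | h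
      · exact h
      · exfalso
        exact hz0 (hr2 h.symm)
    have hθ : ⁅es j, ⁅θ y, fs j⁆⁆ = -((r : ℂ) • θ y) := by
      have h1 : θ ⁅fs j, ⁅es j, y⁆⁆ = ⁅⁅θ y, fs j⁆, es j⁆ := by
        rw [T.lie, T.lie, T.e j hj, T.f j hj]
      rw [hd, T.smul, hr1, Complex.conj_ofReal] at h1
      rw [h1, lie_skew]
    refine smul_case T c hc (mul_pos hrpos hs) ?_
    have h5 : ⁅es j, y⁆ = -⁅y, es j⁆ := (lie_skew _ _).symm
    rw [T.lie, T.e j hj, h5, map_neg, LinearMap.neg_apply, traceForm_apply_lie_apply, hθ, map_neg,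
      map_smul, hs2, smul_eq_mul, Complex.ofReal_mul]
    ring

end lie

end CF
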